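import Pool.Agent.U47.AC.Core

/-!
# Gap unique games are not hard under constant-depth reductions, not even on average

Circuits (`Circuit`, `nodeVal`, `nodeDepth`) are defined in `Pool/Agent/H568R2/Defs.lean`: they have
NOT gates and AND and OR gates of unbounded fan-in, and `size` is the number of gates.

A many-one reduction from a function `f` of `N` bits to the gap problem `UG(ε, δ)`, `ε + δ < 1`,
computed by circuits of constant depth, needs exponential size, `exp (Ω (X ^ (1 / (h + 1))))` up to
the factor `N`, if `X = (1 - ε - δ) * (average sensitivity of f)` is large. This holds for every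
alphabet, every size of the game, nonuniform circuits, and also if the reduction is correct only on a
set `W` of inputs; then the average sensitivity is taken inside of `W`. So exactly as for the
functions computed by circuits of constant depth, only functions of small average sensitivity have
such reductions. In particular, for a randomised reduction from parity (to which all but the bits in
`P` are random bits) which is correct with probability `1 - γ > 1 / 2`, even only on average over the
inputs, this applies with `X = (1 - ε - δ) (1 - 2 γ) |P|`.

Parity is in `NP`, and `NP`-hardness proofs which do not produce a gap usually are reductions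
of constant depth. So the gap in the conjecture cannot be produced at constant depth, whatever `ε`,
`δ`, and the alphabet are.

Idea of the proof. A game of value at least `1 - ε` and a game of value at most `δ` differ in at
least a fraction `1 - ε - δ` of the edges. Under a random restriction which leaves a fraction
`(24 s) ^ (- h)` of the variables free, all bits of the encoding become decision trees of depth `s`,
except with a probability of less than `1 / N`. So for every input at most `s` of the free variables
are sensitive for a given edge, and hence at most `s / (1 - ε - δ)` of the free variables are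
sensitive for `f`. The input which consists of the restriction and of random values for the free
variables is uniformly random and independent of the set of the free variables; so the expected
number of free sensitive variables is `(24 s) ^ (- h)` times the average sensitivity of `f`.
-/

set_option autoImplicit false

namespace Pool.Agent.Results.MP_325f1f_lc.ConstantDepthReductions

open Finset DomAC0

/-- The input `x` with the bit `i` flipped. -/
def flipBit {N : ℕ} (i : Fin N) (x : Fin N → Bool) : Fin N → Bool := Function.update x i (!(x i))

open Classical in
/-- The average sensitivity of `f` inside of `W`: the average over all inputs `x` (in `W` or not) of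
the number of the bits `i` such that `x` and `flipBit i x` belong to `W` and `f` has different
values there. -/
noncomputable def averageSensitivity {N : ℕ} (W : Finset (Fin N → Bool))
    (f : (Fin N → Bool) → Bool) : ℝ :=
  (∑ x : Fin N → Bool, ((univ.filter fun i : Fin N =>
    x ∈ W ∧ flipBit i x ∈ W ∧ f x ≠ f (flipBit i x)).card : ℝ)) / 2 ^ N

/-- The edges of a unique game: a left vertex, a right vertex and a permutation of the labels. -/
abbrev Constraint (U V A : Type) : Type := U × V × Equiv.Perm A

/-- The labeling `L` of the left and `M` of the right vertices satisfies the edge. -/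
def Satisfies {U V A : Type} (L : U → A) (M : V → A) (c : Constraint U V A) : Prop :=
  c.2.2 (L c.1) = M c.2.1

open Classical in
/-- The game with the list of edges `g` has value at least `v`. -/
def ValueAtLeast {U V A E : Type} [Fintype E] (v : ℝ) (g : E → Constraint U V A) : Prop :=
  ∃ (L : U → A) (M : V → A),
    v * Fintype.card E ≤ ((univ.filter fun e => Satisfies L M (g e)).card : ℝ)

open Classical in
/-- The game with the list of edges `g` has value at most `v`. -/
def ValueAtMost {U V A E : Type} [Fintype E] (v : ℝ) (g : E → Constraint U V A) : Prop :=
  ∀ (L : U → A) (M : V → A),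
    ((univ.filter fun e => Satisfies L M (g e)).card : ℝ) ≤ v * Fintype.card E

/-- The circuit `C` computes the games `game x`: for all edges `e` and all possible constraints `c`
the node `out e c`, of depth at most `h`, tells whether the edge `e` of the game is `c`. -/
structure Computes {N : ℕ} {U V A E : Type} (C : Circuit (Fin N)) (h : ℕ)
    (game : (Fin N → Bool) → E → Constraint U V A)
    (out : E → Constraint U V A → Fin N ⊕ Fin C.size) : Prop where
  depth : ∀ e c, C.nodeDepth (out e c) ≤ h
  value : ∀ x e c, C.nodeVal x (out e c) = true ↔ game x e = c

/-- The map `game` is correct on the inputs in `W`, as a many-one reduction from `f` to the gap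
problem: `true` goes to value at least `1 - ε` and `false` goes to value at most `δ`. -/
def CorrectOn {N : ℕ} {U V A E : Type} [Fintype E] (W : Finset (Fin N → Bool))
    (f : (Fin N → Bool) → Bool) (ε δ : ℝ) (game : (Fin N → Bool) → E → Constraint U V A) : Prop :=
  ∀ x ∈ W, (f x = true → ValueAtLeast (1 - ε) (game x)) ∧ (f x = false → ValueAtMost δ (game x))

/-- For every depth `h` there is `X₀ > 0` such that the following holds for all circuits `C` with `N`
inputs which compute, at depth `h`, for every input a unique game with the (nonempty) list of edges
`E`, and for all `ε, δ ≥ 0` with `ε + δ < 1`.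
(1) If the games are correct on `W` for a function `f`, and if
`X = (1 - ε - δ) * averageSensitivity W f ≥ X₀`, then
`(number of gates) * N ≥ 2 ^ (X ^ (1 / (h + 1)) / 100)`.
(2) Let `P` be a set of inputs (the others may be random bits) and suppose that for all but
`γ 2 ^ N` inputs `x` the game of `x` has value at least `1 - ε` if the number of ones in `P` is even,
and value at most `δ` if it is odd. If `X = (1 - ε - δ) * (1 - 2 * γ) * |P| ≥ X₀` then
`(number of gates) * N ≥ 2 ^ (X ^ (1 / (h + 1)) / 100)`. -/
theorem result (h : ℕ) : ∃ X₀ : ℝ, 0 < X₀ ∧ ∀ (N : ℕ) (C : Circuit (Fin N)) (U V A E : Type)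
    [Fintype E] [Nonempty E] (game : (Fin N → Bool) → E → Constraint U V A)
    (out : E → Constraint U V A → Fin N ⊕ Fin C.size) (ε δ : ℝ),
    Computes C h game out → 0 ≤ ε → 0 ≤ δ → ε + δ < 1 →
    (∀ (W : Finset (Fin N → Bool)) (f : (Fin N → Bool) → Bool), CorrectOn W f ε δ game →
      X₀ ≤ (1 - ε - δ) * averageSensitivity W f →
      (2 : ℝ) ^ (((1 - ε - δ) * averageSensitivity W f) ^ (1 / (h + 1 : ℝ)) / 100) ≤
        C.size * N) ∧
    (∀ (P : Finset (Fin N)) (W : Finset (Fin N → Bool)) (γ : ℝ),
      ((Wᶜ).card : ℝ) ≤ γ * 2 ^ N →
      CorrectOn W (fun x => decide (Even (P.filter fun i => x i = true).card)) ε δ game →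
      X₀ ≤ (1 - ε - δ) * ((1 - 2 * γ) * P.card) →
      (2 : ℝ) ^ (((1 - ε - δ) * ((1 - 2 * γ) * P.card)) ^ (1 / (h + 1 : ℝ)) / 100) ≤
        C.size * N) := by
  classical
  obtain ⟨X₀, hX0, hX⟩ := Pool.Agent.U47.AC.main h
  refine ⟨X₀, hX0, ?_⟩
  intro N C U V A E _ _ game out ε δ hcomp hε hδ hεδ
  have hsens : ∀ (W : Finset (Fin N → Bool)) (f : (Fin N → Bool) → Bool),
      averageSensitivity W f = Pool.Agent.U47.AC.avgSens W f := by
    intro W f
    unfold averageSensitivity Pool.Agent.U47.AC.avgSens
    congr 1
    refine sum_congr rfl fun x _ => ?_
    congr 2
    ext i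
    rw [mem_filter, mem_filter]
    exact Iff.rfl
  have part1 : ∀ (W : Finset (Fin N → Bool)) (f : (Fin N → Bool) → Bool),
      CorrectOn W f ε δ game → X₀ ≤ (1 - ε - δ) * averageSensitivity W f →
      (2 : ℝ) ^ (((1 - ε - δ) * averageSensitivity W f) ^ (1 / (h + 1 : ℝ)) / 100) ≤
        C.size * N := by
    intro W f hW hXf
    rw [hsens] at hXf ⊢
    refine hX C game out (fun (l : (U → A) × (V → A)) c => Satisfies l.1 l.2 c) ε δ W f
      Fintype.card_pos hcomp.depth hcomp.value hε hδ hεδ ?_ ?_ hXf
    · intro x hx hfx
      obtain ⟨L, M, hLM⟩ := (hW x hx).1 hfx
      exact ⟨(L, M), hLM⟩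
    · intro x hx hfx l
      exact (hW x hx).2 hfx l.1 l.2
  refine ⟨part1, ?_⟩
  intro P W γ hWc hW hXP
  have hg : 0 < 1 - ε - δ := by linarith
  have hs := Pool.Agent.U47.AC.parity_sens P W
    (fun x => decide (Even (P.filter fun i => x i = true).card)) γ (by
      refine le_trans (le_of_eq ?_) hWc
      congr 2
      ext x
      simp) (by
      intro x _
      rw [decide_eq_true_iff, Nat.not_odd_iff_even])
  rw [← hsens] at hs
  have hle := mul_le_mul_of_nonneg_left hs hg.le
  refine le_trans ?_ (part1 W _ hW (hXP.trans hle))
  apply Real.rpow_le_rpow_of_exponent_le (by norm_num)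
  apply div_le_div_of_nonneg_right _ (by norm_num)
  exact Real.rpow_le_rpow (hX0.le.trans hXP) hle (by positivity)

end Pool.Agent.Results.MP_325f1f_lc.ConstantDepthReductions
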