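import Pool.Agent.H16UG.Circ

/-!
# Gap unique games are hard for decomposable circuits

A circuit (`Pool/Agent/U20/DN/Defs.lean`) has leaves which test one variable each, conjunctions of
two gates and disjunctions of arbitrarily many gates; it is decomposable (a DNNF) if no variable
occurs below both gates of a conjunction. An input is accepted if there is a proof tree (`Acc`).
The model contains the nondeterministic read-once branching programs.

The inputs are unique games (`Pool/Agent/H16UG/Defs.lean`) on `n + n` vertices whose edges are all
pairs, the labels are the elements of a finite abelian group `Γ` with `q` elements; the variables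
are the edges, their values the constraint permutations. All hypotheses on the circuits concern
linear games only, with constraints `R v - L u = c`.

1. Let `k` be any integer between `(1 / q + η) n ^ 2` and `n ^ 2`. A decomposable circuit which
accepts all linear games in which `k`, but not `k + 1`, edges can be satisfied, and rejects all
linear games of value at most `1 / q + η`, has at least `exp (η ^ 14 n / 2 ^ 32)` gates, if
`n ≥ 2 ^ 14 / η ^ 6`. So this holds for every completeness `c = k / n ^ 2` and soundness `s`,
`1 / q < s < c ≤ 1`, in particular for completeness `1 - ε`, `ε > 0`. The bound does not depend on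
`Γ`. It also holds, up to the factor `2 ^ μ`, for random circuits which never accept a linear game
of value at most `1 / q + η` and accept each linear game of optimum `k` with probability at least
`2 ^ (- μ)`.
2. The trivial circuit, which guesses the labeling, has `q ^ (2 n) (2 n ^ 2 + 1) + 1` gates and
accepts exactly the games of value `1`.
3. No game has value less than `1 / q`. So in (1) the gap is arbitrary.

Proof of (1): Decomposable circuits with `s` gates contain, for any family of accepted inputs, a
product set with respect to a partition of the edges into `t` parts of at most `2 θ` edges which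
contains a fraction `s ^ (- 2 t)` of the family (`U20.DN`). Our family consists of all relabelings
of one linear game `w` of optimum `k` (`zg w a` for all labelings `a`). We show that a mixture
of `t` relabelings for independent uniform `a`, the `k`-th one on the `k`-th part, has value at most
`1 / q + η` except with probability `exp (- η ^ 2 n / (16 t))`; here `w` is arbitrary. For the
function `h = 1_{0} - 1 / q` on `Γ` we have `h * h = h`, and so by Cauchy-Schwarz, applied twice,
the fourth power of the number of edges satisfied by a labeling minus `n ^ 2 / q` is at most
`n ^ 4` times the sum of `h` over the four-cycles. If the four-cycle is not degenerate and two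
opposite edges are in different parts, the mean of this term is `0`. This bounds the mean of the
value of the mixture. The value has bounded differences, since one coordinate of one labeling
concerns `n` edges only. In particular there are games of value at most `1 / q + η`; changing one
constraint after the other we get games of every optimum between `(1 / q + η) n ^ 2` and `n ^ 2`.
-/

set_option autoImplicit false

namespace Pool.Agent.Results.MP_325f1f_lc.DecomposableCircuits

open Pool.Agent.U20.DN Pool.Agent.H16UG

theorem result (Γ : Type) [AddCommGroup Γ] [Fintype Γ] :
    (∀ (n k : ℕ) (η : ℝ), 0 < η → η ≤ 1 → 2 ^ 14 / η ^ 6 ≤ (n : ℝ) →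
      (1 / (Fintype.card Γ : ℝ) + η) * ((n : ℝ) * n) ≤ k → k ≤ n ^ 2 →
      ∀ (μ : ℕ) (R : Type) [Fintype R] [Nonempty R] (I : R → Type) [∀ ρ, Fintype (I ρ)]
        (G : ∀ ρ, I ρ → Gate (Fin n × Fin n) (Equiv.Perm Γ) (I ρ)) (r : ∀ ρ, I ρ),
        (∀ ρ, Decomposable (G ρ)) →
        (∀ ρ x, Linear x → ValueAtMost (1 / (Fintype.card Γ : ℝ) + η) x →
          ¬ Acc (G ρ) x (r ρ)) →
        (∀ x, Linear x → Optimum k x →
          Nat.card R ≤ 2 ^ μ * Nat.card {ρ // Acc (G ρ) x (r ρ)}) →
        ∃ ρ, Real.exp (η ^ 14 * n / 2 ^ 32) ≤ 2 ^ μ * (Fintype.card (I ρ) : ℝ)) ∧
    (∀ n : ℕ,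
      ∃ (I : Type) (_ : Fintype I) (G : I → Gate (Fin n × Fin n) (Equiv.Perm Γ) I) (r : I),
        Decomposable G ∧ Fintype.card I = Fintype.card Γ ^ (2 * n) * (2 * n ^ 2 + 1) + 1 ∧
          ∀ x, Acc G x r ↔ ValueOne x) ∧
    (∀ (n : ℕ) (δ : ℝ), 1 ≤ n → δ < 1 / (Fintype.card Γ : ℝ) →
      ∀ x : Fin n × Fin n → Equiv.Perm Γ, ¬ ValueAtMost δ x) := by
  classical
  exact ⟨fun n k η hη hη1 hn hk hk2 μ R _ _ I _ G r hd hno hyes =>
    lower hη hη1 hn hk hk2 μ R I G r hd hno hyes,
    fun n => upper n, fun n δ hn hδ x => value_ge hn hδ x⟩

end Pool.Agent.Results.MP_325f1f_lc.DecomposableCircuits
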