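import Pool.Agent.U16.UGO.Main

/-!
# The Unique Games Conjecture on the hardest instances

The definitions used in the statement:

* in `Pool/Agent/U16/UGO/Game.lean`: `Game` (unique games as lists of edges), `ValueAtLeast`,
  `ValueAtMost` (the value of a game), `code` (the bit string of a game), `orG` (the disjunction of
  two games: pairs of vertices, pairs of edges, disjoint union of the alphabets);
* in `Pool/Agent/U16/UGO/Main.lean`: `Rel`, `ProofHard`, `Yes`, `No`, `Hard`;
* in `Pool/Agent/W888/UG/Model.lean` and `Pool/Agent/W888/UG/Ent.lean`: `Relax`, `Tree`,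
  `SplitProof`, `lab`;
* in `Pool/Agent/NPC/Defs.lean`: `PolyTime`, `InNP`.
-/

set_option autoImplicit false

namespace Pool.Agent.Results.MP_325f1f_lc.HardestInstances

open Pool.Agent.NPC Pool.Agent.W888.UG Pool.Agent.U16.UGO

/-- A class of unique games. -/
abbrev Fam : Type := ∀ {N M q k : ℕ}, Game N M q k → Prop

/-- The Unique Games Conjecture for the instances in the class `F`. -/
def ConjectureOn (F : Fam) : Prop :=
  ∀ ε δ : ℚ, 0 < ε → 0 < δ → ε + δ < 1 → ∃ q : ℕ, 0 < q ∧ Hard (Yes F ε q) (No F δ q)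

/-- The Unique Games Conjecture. -/
def Conjecture : Prop := ConjectureOn fun _ => True

/-- (1) If for some alphabet the gap problem with `1 - ε` and `δ` is NP-hard, then for every
`δ' > δ`, `0 < ε' < 1` and `η > 0` there is an alphabet for which the gap problem with `1 - ε` and
`δ'` is NP-hard even for instances for which every branch-and-cut proof that the value is less than
`1 - ε'` has at least `exp (k ^ (1 - η))` leaves, where `k` is the number of the edges. (2) The
Unique Games Conjecture is equivalent to the Unique Games Conjecture for these instances. (3) It is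
equivalent to the Unique Games Conjecture for every class of games which contains, for every
`δ > 0`, all disjunctions `orG g g0` with some game `g0` of value at most `δ`. -/
theorem result :
    (∀ (ε δ δ' ε' η : ℝ) (q : ℕ), 0 ≤ δ → δ < δ' → 0 < ε' → ε' < 1 → 0 < η → 0 < q →
      Hard (Yes (fun _ => True) ε q) (No (fun _ => True) δ q) →
      ∃ q' : ℕ, 0 < q' ∧ Hard (Yes (ProofHard ε' η) ε q') (No (ProofHard ε' η) δ' q')) ∧
    (∀ ε' η : ℝ, 0 < ε' → ε' < 1 → 0 < η → (Conjecture ↔ ConjectureOn (ProofHard ε' η))) ∧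
    (∀ F : Fam, (∀ δ : ℝ, 0 < δ → ∃ (N0 M0 q0 k0 : ℕ) (g0 : Game N0 M0 q0 k0), 0 < k0 ∧
        ValueAtMost δ g0 ∧ ∀ (N M q k : ℕ) (g : Game N M q k), F (orG g g0)) →
      (Conjecture ↔ ConjectureOn F)) := by
  have hback : ∀ F : Fam, ConjectureOn F → Conjecture := by
    intro F h ε δ hε hδ hεδ
    obtain ⟨q, hq, h⟩ := h ε δ hε hδ hεδ
    refine ⟨q, hq, h.mono polyTime_id ?_ ?_⟩
    · rintro y ⟨N, M, k, g, hk, -, hv, rfl⟩
      exact ⟨N, M, k, g, hk, trivial, hv, rfl⟩
    · rintro y ⟨N, M, k, g, hk, -, hv, rfl⟩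
      exact ⟨N, M, k, g, hk, trivial, hv, rfl⟩
  have h1 : ∀ (ε δ δ' ε' η : ℝ) (q : ℕ), 0 ≤ δ → δ < δ' → 0 < ε' → ε' < 1 → 0 < η → 0 < q →
      Hard (Yes (fun _ => True) ε q) (No (fun _ => True) δ q) →
      ∃ q' : ℕ, 0 < q' ∧ Hard (Yes (ProofHard ε' η) ε q') (No (ProofHard ε' η) δ' q') := by
    intro ε δ δ' ε' η q hδ hδ' hε' hε1 hη hq h
    obtain ⟨N0, M0, q0, k0, g0, c, hk0, hc, hv0, hg0⟩ := base ε' (δ' - δ) hε' hε1 (by linarith)
    obtain ⟨K, t, hK, hnum⟩ := number hc hη k0 hk0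
    have hP : Poly fun r : ℕ × ℕ × List (ℕ × ℕ × List ℕ) =>
        (List.replicate K ()).flatMap fun _ => pwl t r.2.2 := by
      have h2 := poly_pwl (l := fun r : ℕ × ℕ × List (ℕ × ℕ × List ℕ) => r.2.2)
        (NPC.Poly.snd (NPC.Poly.snd NPC.Poly.id)) t
      exact NPC.Poly.flatMap (NPC.Poly.const _) (h2.comp (NPC.Poly.fst NPC.Poly.id))
    have hlen : ∀ {N M k : ℕ} (g : Game N M q k),
        ((List.replicate K ()).flatMap fun _ => pwl t (raw g).2.2).length = K * k ^ t := by
      intro N M k g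
      rw [List.length_flatMap]
      simp only [length_pwl, List.map_replicate, List.sum_replicate, smul_eq_mul]
      congr 2
      unfold raw
      simp
    have hard : ∀ {N M k : ℕ} (g : Game N M q k), 0 < k →
        ProofHard ε' η (orG g (copies (K * k ^ t) g0)) := by
      intro N M k g hk
      refine proofHard_of _ fun F h1 h2 h3 => ?_
      refine le_trans (Real.exp_le_exp.2 ?_) (hg0 (K * k ^ t) N M q k g F h1 h2 h3)
      exact hnum k hk
    refine ⟨q + q0, by omega, h.mono (polyTime_red q hP (raw g0)) ?_ ?_⟩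
    · rintro y ⟨N, M, k, g, hk, -, hv, rfl⟩
      rw [red_code, hlen]
      exact ⟨_, _, _, _, Nat.mul_pos hk (Nat.mul_pos hk0 (Nat.mul_pos hK (pow_pos hk _))),
        hard g hk, or_left hv _, rfl⟩
    · rintro y ⟨N, M, k, g, hk, -, hv, rfl⟩
      rw [red_code, hlen]
      refine ⟨_, _, _, _, Nat.mul_pos hk (Nat.mul_pos hk0 (Nat.mul_pos hK (pow_pos hk _))),
        hard g hk, ?_, rfl⟩
      have h4 := or_le hδ (by linarith) hv (copies_le (K * k ^ t) hv0)
      rwa [add_sub_cancel] at h4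
  refine ⟨h1, fun ε' η hε' hε1 hη => ⟨fun h ε δ hε hδ hεδ => ?_, hback _⟩,
    fun F hF => ⟨fun h ε δ hε hδ hεδ => ?_, hback _⟩⟩
  · obtain ⟨q, hq, h⟩ := h ε (δ / 2) hε (by linarith) (by linarith)
    refine h1 ε (δ / 2 : ℚ) δ ε' η q (by positivity) ?_ hε' hε1 hη hq h
    exact_mod_cast half_lt_self hδ
  · obtain ⟨q, hq, h⟩ := h ε (δ / 2) hε (by linarith) (by linarith)
    obtain ⟨N0, M0, q0, k0, g0, hk0, hv0, hg0⟩ := hF ((δ / 2 : ℚ) : ℝ) (by positivity)
    refine ⟨q + q0, by omega, h.mono (polyTime_red1 q (raw g0)) ?_ ?_⟩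
    · rintro y ⟨N, M, k, g, hk, -, hv, rfl⟩
      rw [red1_code]
      exact ⟨_, _, _, _, Nat.mul_pos hk hk0, hg0 _ _ _ _ g, or_left hv _, rfl⟩
    · rintro y ⟨N, M, k, g, hk, -, hv, rfl⟩
      rw [red1_code]
      refine ⟨_, _, _, _, Nat.mul_pos hk hk0, hg0 _ _ _ _ g, ?_, rfl⟩
      have h4 := or_le (by positivity) (by positivity) hv hv0
      have h5 : ((δ / 2 : ℚ) : ℝ) + ((δ / 2 : ℚ) : ℝ) = (δ : ℝ) := by
        push_cast
        ring
      rwa [h5] at h4

end Pool.Agent.Results.MP_325f1f_lc.HardestInstances
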