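import Pool.Agent.H16UG.Tensor

/-!
# Gap unique games are hard for read-once tensor networks

A tree tensor network `Net K V A W` (`Pool/Agent/TH700/PA/Defs.lean`) has leaves that read one
variable with a vector in `K ^ W` for each value; an inner node combines the vectors of its two
children by an arbitrary bilinear map. It accepts the input `x` if a linear form of the vector of
the root is not zero. The field `K` and the weights are arbitrary, so there may be cancellations.
The tree is arbitrary. The bond dimension is `card W`.

The inputs are unique games (`Pool/Agent/H16UG/Defs.lean`) on `n + n` vertices whose edges are all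
pairs, the labels are the elements of a finite abelian group `Γ` with `q` elements; the variables
are the edges, their values the constraint permutations. All hypotheses concern linear games only,
with constraints `R v - L u = c`.

1. Let `k` be any integer between `(1 / q + η) n ^ 2` and `n ^ 2`. A network which reads each edge at
most once, is not zero on all linear games in which `k`, but not `k + 1`, edges can be satisfied,
and zero on all linear games of value at most `1 / q + η` has bond dimension at least
`exp (η ^ 10 n / 2 ^ 25)`, if `n ≥ 2 ^ 33 / η ^ 14`; the number of nodes is arbitrary, and the bound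
does not depend on `Γ`. It also holds, up to the factor `2 ^ μ`, for random networks which are zero
on linear games of value at most `1 / q + η` and are not zero on each linear game of optimum `k`
with probability at least `2 ^ (- μ)`.
2. There is a linear network over `ℚ` with `2 n ^ 2 - 1` nodes and bond dimension `q ^ (2 n)`, which
reads each edge once and is not zero exactly on the games of value `1`.

Proof of (1): By the partition, rank and replacement lemmas of `TH700.PA` the accepted inputs of any
family contain many mixtures of `t` of them with respect to a partition of the edges into `t` parts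
of at most `2 θ` edges. Mixtures of `t` independent random relabelings of any linear game have
value at most `1 / q + η` except with probability `exp (- η ^ 2 n / (16 t))`: four-cycles and
bounded differences (`H16UG.Val`, see `MP_325f1f_lc.DecomposableCircuits`).
-/

set_option autoImplicit false

namespace Pool.Agent.Results.MP_325f1f_lc.TensorNetworks

open Pool.Agent.H16UG
open Pool.Agent.TH700.PA (Net)

theorem result (Γ : Type) [AddCommGroup Γ] [Fintype Γ] :
    (∀ (n k : ℕ) (η : ℝ), 0 < η → η ≤ 1 → 2 ^ 33 / η ^ 14 ≤ (n : ℝ) →
      (1 / (Fintype.card Γ : ℝ) + η) * ((n : ℝ) * n) ≤ k → k ≤ n ^ 2 →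
      ∀ (μ : ℕ) (R : Type) [Fintype R] [Nonempty R] (K W : R → Type) [∀ ρ, Field (K ρ)]
        [∀ ρ, Fintype (W ρ)] (T : ∀ ρ, Net (K ρ) (Fin n × Fin n) (Equiv.Perm Γ) (W ρ))
        (c : ∀ ρ, W ρ → K ρ),
        (∀ ρ e, (T ρ).reads e ≤ 1) →
        (∀ ρ x, Linear x → ValueAtMost (1 / (Fintype.card Γ : ℝ) + η) x →
          (T ρ).value (c ρ) x = 0) →
        (∀ x, Linear x → Optimum k x →
          Nat.card R ≤ 2 ^ μ * Nat.card {ρ // (T ρ).value (c ρ) x ≠ 0}) →
        ∃ ρ, Real.exp (η ^ 10 * n / 2 ^ 25) ≤ 2 ^ μ * (Fintype.card (W ρ) : ℝ)) ∧
    (∀ n : ℕ, 1 ≤ n →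
      ∃ (W : Type) (_ : Fintype W) (T : Net ℚ (Fin n × Fin n) (Equiv.Perm Γ) W) (c : W → ℚ),
        Fintype.card W = Fintype.card Γ ^ (2 * n) ∧
        T.Linear ∧ (∀ e, T.reads e = 1) ∧ T.size = 2 * n ^ 2 - 1 ∧
          ∀ x, T.value c x ≠ 0 ↔ ValueOne x) := by
  classical
  exact ⟨fun n k η hη hη1 hn hk hk2 μ R _ _ K W _ _ T c h1 hno hyes =>
    lower_net hη hη1 hn hk hk2 μ R K W T c h1 hno hyes, fun n hn => upper_net hn⟩

end Pool.Agent.Results.MP_325f1f_lc.TensorNetworks
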